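import Pool.Agent.W375.SM.Cone

set_option autoImplicit false

/-! Part C1. -/

namespace Pool.Agent.W375.SM

open MvPolynomial Pool.Agent.H628R4.TZ Pool.Agent.H628R4.TP MeasureTheory Filter Topology
open Pool.Agent.W425.SM

/-- the block triangular computation of Haar factors -/
lemma factor_block {J K D : Type*} [Fintype J] [DecidableEq J] [Fintype K] [Fintype D]
    (H : Matrix J J ℝ) (hH : H.det ≠ 0) (w : (J → ℝ) → (D → ℝ)) (hw : Measurable w)
    (S : (K → ℝ) ≃ₗ[ℝ] (D → ℝ)) (s θ : ENNReal)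
    (hS : Measure.map S volume = s • volume)
    (hG : Measure.map (fun p : (J → ℝ) × (K → ℝ) => (H.mulVec p.1, w p.1 + S p.2)) volume =
      θ • volume) :
    s = θ * ENNReal.ofReal |H.det| := by
  have hSm : Measurable S := (emb S).measurable
  have hHm : Measurable (fun z : J → ℝ => H.mulVec z) :=
    (LinearMap.continuous_of_finiteDimensional (Matrix.toLin' H)).measurable
  have hGm : Measurable (fun p : (J → ℝ) × (K → ℝ) => (H.mulVec p.1, w p.1 + S p.2)) :=
    (hHm.comp measurable_fst).prodMk ((hw.comp measurable_fst).add (hSm.comp measurable_snd))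
  set C1 : Set (J → ℝ) := Set.Icc 0 1 with hC1
  set C2 : Set (D → ℝ) := Set.Icc 0 1 with hC2
  have m1 : MeasurableSet C1 := measurableSet_Icc
  have m2 : MeasurableSet C2 := measurableSet_Icc
  have v1 : volume C1 = 1 := by
    rw [hC1, Real.volume_Icc_pi]; simp
  have v2 : volume C2 = 1 := by
    rw [hC2, Real.volume_Icc_pi]; simp
  have e1 : Measure.map (fun p : (J → ℝ) × (K → ℝ) => (H.mulVec p.1, w p.1 + S p.2)) volume
      (C1 ×ˢ C2) = θ := by
    rw [hG, Measure.smul_apply, Measure.volume_eq_prod, Measure.prod_prod, v1, v2]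
    simp
  rw [Measure.map_apply hGm (m1.prod m2), Measure.volume_eq_prod,
    Measure.prod_apply (hGm (m1.prod m2))] at e1
  have e2 : ∀ z : J → ℝ, volume (Prod.mk z ⁻¹'
      ((fun p : (J → ℝ) × (K → ℝ) => (H.mulVec p.1, w p.1 + S p.2)) ⁻¹' (C1 ×ˢ C2))) =
      Set.indicator ((fun z : J → ℝ => H.mulVec z) ⁻¹' C1) (fun _ => s) z := by
    intro z
    by_cases hz : H.mulVec z ∈ C1
    · rw [Set.indicator_of_mem (by exact hz)]
      have h1 : (Prod.mk z ⁻¹' ((fun p : (J → ℝ) × (K → ℝ) => (H.mulVec p.1, w p.1 + S p.2)) ⁻¹'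
          (C1 ×ˢ C2)) : Set (K → ℝ)) = S ⁻¹' ((fun a => w z + a) ⁻¹' C2) := by
        ext c
        simp [hz]
      have m3 : MeasurableSet ((fun a => w z + a) ⁻¹' C2 : Set (D → ℝ)) :=
        (measurable_const_add _) m2
      rw [h1, ← Measure.map_apply hSm m3, hS, Measure.smul_apply, measure_preimage_add, v2]
      simp
    · rw [Set.indicator_of_notMem (by exact hz)]
      have h1 : (Prod.mk z ⁻¹' ((fun p : (J → ℝ) × (K → ℝ) => (H.mulVec p.1, w p.1 + S p.2)) ⁻¹'
          (C1 ×ˢ C2)) : Set (K → ℝ)) = ∅ := by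
        ext c
        simp [hz]
      rw [h1, measure_empty]
  simp_rw [e2] at e1
  rw [lintegral_indicator (hHm m1), setLIntegral_const] at e1
  have e3 : volume ((fun z : J → ℝ => H.mulVec z) ⁻¹' C1) = ENNReal.ofReal |H.det|⁻¹ := by
    have h2 := Real.map_matrix_volume_pi_eq_smul_volume_pi hH
    have h3 := congrArg (fun m : Measure (J → ℝ) => m C1) h2
    beta_reduce at h3
    rw [Measure.map_apply (LinearMap.continuous_of_finiteDimensional _).measurable m1,
      Measure.smul_apply, v1] at h3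
    rw [abs_inv, smul_eq_mul, mul_one] at h3
    exact h3
  rw [e3] at e1
  rw [← e1, mul_assoc, ← ENNReal.ofReal_mul (by positivity), inv_mul_cancel₀ (abs_ne_zero.mpr hH),
    ENNReal.ofReal_one, mul_one]

theorem taskC1 : TaskC1 := by
  classical
  intro r N v R J hv hJne
  obtain ⟨d, Θ, θ, hθ, had, hθt, hA⟩ := exists_adapt v hv J
  refine ⟨d, Θ, θ.toReal, had, ?_⟩
  intro σ hσ hJ hcard F
  obtain ⟨Bm, e, hB, he⟩ := exists_frame v R J σ hσ hcard
  have hdet := det_Hm_ne v J σ Bm e hv hB hJ he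
  have hidx := idx_eq v J σ Bm e hB hJ he hdet
  set H := Hm v J σ Bm e with hH
  set HR : Matrix J J ℝ := H.map (fun x : ℤ => (x : ℝ)) with hHR
  have hdetR : HR.det = (H.det : ℝ) := (RingHom.map_det (Int.castRingHom ℝ) _).symm
  have hdetR0 : HR.det ≠ 0 := by rw [hdetR]; exact_mod_cast hdet
  have hAU : ∀ p, Al v J (Ul J σ Bm e p) = HR.mulVec p.1 := fun p => Al_Um v J σ Bm e hJ he p
  have hA' : ∀ x : Fin (N+1) → ℝ, (Θ.symm x).1 = Al v J x := by
    intro x
    have := hA (Θ.symm x).1 (Θ.symm x).2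
    rw [Prod.mk.eta, LinearEquiv.apply_symm_apply] at this
    exact this.symm
  -- the map S
  let Sl : (σ → ℝ) →ₗ[ℝ] (Fin d → ℝ) :=
    LinearMap.snd ℝ _ _ ∘ₗ Θ.symm.toLinearMap ∘ₗ Ul J σ Bm e ∘ₗ LinearMap.inr ℝ _ _
  have hSl : ∀ c, Sl c = (Θ.symm (Ul J σ Bm e (0, c))).2 := fun c => rfl
  have hU0 : ∀ c, (Θ.symm (Ul J σ Bm e (0, c))).1 = 0 := by
    intro c
    rw [hA', hAU]
    simp
  have hΘS : ∀ c, Θ (0, Sl c) = Ul J σ Bm e (0, c) := by
    intro c
    have h1 : ((0 : J → ℝ), Sl c) = Θ.symm (Ul J σ Bm e (0, c)) := Prod.ext (hU0 c).symm (hSl c)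
    rw [h1, LinearEquiv.apply_symm_apply]
  have hinj : Function.Injective Sl := by
    rw [← LinearMap.ker_eq_bot, LinearMap.ker_eq_bot']
    intro c hc
    have h1 : Ul J σ Bm e (0, c) = 0 := by
      rw [← hΘS, hc]
      exact map_zero Θ
    have h2 : ((0 : J → ℝ), c) = 0 := (Ul_bij J σ Bm e hB).1 (by rw [h1, map_zero])
    exact congrArg Prod.snd h2
  have hcd : Fintype.card σ = d := by
    have := had.dim
    rw [Fintype.card_coe]
    omega
  let S : (σ → ℝ) ≃ₗ[ℝ] (Fin d → ℝ) :=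
    LinearEquiv.ofInjectiveOfFinrankEq Sl hinj (by
      rw [Module.finrank_fintype_fun_eq_card, Module.finrank_fintype_fun_eq_card, hcd,
        Fintype.card_fin])
  have hS : ∀ c, S c = Sl c := fun c => rfl
  obtain ⟨s, s1, s2, s3⟩ := exists_factor (volume : Measure (σ → ℝ))
    (volume : Measure (Fin d → ℝ)) S
  -- the comparison of the factors
  have hfac : s = θ * ENNReal.ofReal |HR.det| := by
    let wl : (J → ℝ) →ₗ[ℝ] (Fin d → ℝ) :=
      LinearMap.snd ℝ _ _ ∘ₗ Θ.symm.toLinearMap ∘ₗ Ul J σ Bm e ∘ₗ LinearMap.inl ℝ _ _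
    have hwl : ∀ z, wl z = (Θ.symm (Ul J σ Bm e (z, 0))).2 := fun c => rfl
    refine factor_block HR hdetR0 wl (LinearMap.continuous_of_finiteDimensional wl).measurable
      S s θ s3 ?_
    have h1 : (fun p : (J → ℝ) × (σ → ℝ) => (HR.mulVec p.1, wl p.1 + S p.2)) =
        Θ.symm ∘ (Um J σ Bm e) := by
      funext p
      have h2 : p = (p.1, 0) + (0, p.2) := by simp
      refine Prod.ext ?_ ?_
      · simp only [Function.comp_apply]
        rw [hA', ← Ul_apply, hAU]
      · simp only [Function.comp_apply]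
        rw [← Ul_apply]
        conv_rhs => rw [h2, map_add, map_add]
        rw [Prod.snd_add, hwl, hS, hSl]
    rw [h1, ← Measure.map_map (emb Θ.symm).measurable (mp_Um J σ Bm e hB).measurable,
      (mp_Um J σ Bm e hB).map_eq, hθ]
  have hfacR : (s.toReal : ℝ) = θ.toReal * (idx v J : ℝ) := by
    rw [hfac, ENNReal.toReal_mul, ENNReal.toReal_ofReal (abs_nonneg _), hdetR, hidx,
      Nat.cast_natAbs]
    push_cast
    rfl
  -- the vector
  have hvec : ∀ c : σ → ℝ, Ul J σ Bm e (0, c) = ∑ ρ : σ, c ρ • rhoHat v (ρ : Fin N → ℕ) := by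
    intro c
    funext l
    rw [Ul_apply, Um_apply, Finset.sum_apply]
    simp only [Pi.zero_apply, mul_zero, Finset.sum_const_zero, zero_add, Pi.smul_apply, smul_eq_mul]
    refine Finset.sum_congr rfl fun ρ _ => ?_
    rw [he, rhoZ_cast, mul_comm]
  have hpre : S ⁻¹' (reg v Θ σ) = {c : σ → ℝ | ∀ ρ, 0 < c ρ} := by
    ext c
    simp only [Set.mem_preimage, reg, Set.mem_ofPred_eq]
    constructor
    · rintro ⟨c', hc', h⟩ ρ
      have h1 : ∑ ρ ∈ σ, c' ρ • rhoHat v ρ =
          ∑ ρ : σ, (fun ρ : σ => c' ρ) ρ • rhoHat v (ρ : Fin N → ℕ) :=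
        (Finset.sum_coe_sort σ (fun ρ => c' ρ • rhoHat v ρ)).symm
      rw [hS, hΘS, h1, ← hvec] at h
      have h2 := (Ul_bij J σ Bm e hB).1 h
      have h3 : c = fun ρ : σ => c' ρ := congrArg Prod.snd h2
      rw [h3]
      exact hc' ρ ρ.2
    · intro hc
      refine ⟨fun ρ => if h : ρ ∈ σ then c ⟨ρ, h⟩ else 0, fun ρ hρ => ?_, ?_⟩
      · simp only [hρ, dif_pos]
        exact hc _
      · rw [hS, hΘS, hvec, ← Finset.sum_coe_sort σ]
        refine Finset.sum_congr rfl fun ρ _ => ?_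
        simp
  have key := setIntegral_factor (volume : Measure (σ → ℝ)) (volume : Measure (Fin d → ℝ)) S s s3
    (reg v Θ σ) (fun a => F (Θ (0, a)))
  rw [hpre, hfacR] at key
  push_cast at key
  rw [← key]
  refine integral_congr_ae (Filter.Eventually.of_forall fun c => ?_)
  simp only
  rw [hS, hΘS, hvec]

end Pool.Agent.W375.SM
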