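import Pool.Agent.W375.SM.Mes

set_option autoImplicit false

/-! The cone part. -/

namespace Pool.Agent.W375.SM

open MvPolynomial Pool.Agent.H628R4.TZ Pool.Agent.H628R4.TP MeasureTheory Filter Topology
open Pool.Agent.W425.SM

/-- integer version of `rhoHat` -/
noncomputable def rhoZ {r N : ℕ} (v : Fin r → Fin N → ℕ) (ρ : Fin N → ℕ) : Fin (N+1) → ℤ :=
  Fin.cons (ordAlong v ρ : ℤ) (fun l => (ρ l : ℤ))

lemma rhoZ_cast {r N : ℕ} (v : Fin r → Fin N → ℕ) (ρ : Fin N → ℕ) (l : Fin (N+1)) :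
    ((rhoZ v ρ l : ℤ) : ℝ) = rhoHat v ρ l := by
  refine Fin.cases ?_ (fun i => ?_) l
  · simp [rhoZ, rhoHat]
  · simp [rhoZ, rhoHat]

lemma exists_frame {r N : ℕ} (v : Fin r → Fin N → ℕ) (R : SmoothFan N) (J : Finset (Fin r))
    (σ : Finset (Fin N → ℕ)) (hσ : σ ∈ R.cones) (hcard : σ.card + J.card = N + 1) :
    ∃ (Bm : Matrix (Fin (N+1)) (Fin (N+1)) ℤ) (e : J ⊕ σ ≃ Fin (N+1)), IsUnit Bm.det ∧
      ∀ ρ : σ, Bm (e (Sum.inr ρ)) = rhoZ v ρ := by
  classical
  obtain ⟨B, hB, hrow⟩ := R.smooth σ hσ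
  choose i hi using fun ρ : σ => hrow ρ ρ.2
  have hinj : Function.Injective i := by
    intro ρ ρ' h
    apply Subtype.ext
    funext l
    have h1 := hi ρ l
    have h2 := hi ρ' l
    rw [h, h2] at h1
    exact_mod_cast h1.symm
  set q : Fin N → ℤ := Function.extend i (fun ρ : σ => (ordAlong v ρ : ℤ)) 0 with hq
  set f : σ → Fin (N+1) := fun ρ => (i ρ).succ with hf
  have hfinj : Function.Injective f := fun a b h => hinj (Fin.succ_injective _ h)
  have hc : Fintype.card J = Fintype.card ((Set.range f)ᶜ : Set (Fin (N+1))) := by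
    rw [Fintype.card_compl_set, Fintype.card_fin, Set.card_range_of_injective hfinj,
      Fintype.card_coe, Fintype.card_coe]
    omega
  let eJ : J ≃ ((Set.range f)ᶜ : Set (Fin (N+1))) := Fintype.equivOfCardEq hc
  let e : J ⊕ σ ≃ Fin (N+1) := (Equiv.sumComm _ _).trans
    ((Equiv.sumCongr (Equiv.ofInjective f hfinj) eJ).trans (Equiv.Set.sumCompl _))
  refine ⟨Bh B q, e, by rw [det_Bh]; exact hB, fun ρ => ?_⟩
  have h1 : e (Sum.inr ρ) = (i ρ).succ := rfl
  rw [h1, Bh_succ, rhoZ]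
  congr 1
  · rw [hq, hinj.extend_apply]
  · funext l
    rw [hi]

section frame

variable {r N : ℕ} (v : Fin r → Fin N → ℕ) (J : Finset (Fin r)) (σ : Finset (Fin N → ℕ))
  (Bm : Matrix (Fin (N+1)) (Fin (N+1)) ℤ) (e : J ⊕ σ ≃ Fin (N+1))

/-- real cast of the transpose -/
noncomputable def BT : Matrix (Fin (N+1)) (Fin (N+1)) ℝ := (Bm.map (fun x : ℤ => (x : ℝ))).transpose

lemma det_BT : (BT Bm).det = (Bm.det : ℝ) := by
  rw [BT, Matrix.det_transpose]
  exact (RingHom.map_det (Int.castRingHom ℝ) Bm).symm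

/-- the volume preserving map -/
noncomputable def Um (p : (J → ℝ) × (σ → ℝ)) : Fin (N+1) → ℝ :=
  Matrix.toLin' (BT Bm) (MeasurableEquiv.piCongrLeft (fun _ => ℝ) e
    ((MeasurableEquiv.sumPiEquivProdPi (fun _ => ℝ)).symm p))

lemma Um_apply (p : (J → ℝ) × (σ → ℝ)) (l : Fin (N+1)) :
    Um J σ Bm e p l = ∑ j : J, (Bm (e (Sum.inl j)) l : ℝ) * p.1 j +
      ∑ ρ : σ, (Bm (e (Sum.inr ρ)) l : ℝ) * p.2 ρ := by
  have h1 : ∀ s : J ⊕ σ, MeasurableEquiv.piCongrLeft (fun _ => ℝ) e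
      ((MeasurableEquiv.sumPiEquivProdPi (fun _ => ℝ)).symm p) (e s) = Sum.elim p.1 p.2 s := by
    intro s
    rw [MeasurableEquiv.coe_piCongrLeft, Equiv.piCongrLeft_apply_apply]
    rcases s with j | ρ <;> rfl
  rw [Um, Matrix.toLin'_apply, Matrix.mulVec, dotProduct, ← e.sum_comp, Fintype.sum_sum_type]
  simp only [h1, BT, Matrix.transpose_apply, Matrix.map_apply, Sum.elim_inl, Sum.elim_inr]

lemma mp_Um (hB : IsUnit Bm.det) :
    MeasurePreserving (Um J σ Bm e) volume volume := by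
  have hdet : |(BT Bm).det| = 1 := by
    rw [det_BT]
    rcases Int.isUnit_iff.mp hB with h | h <;> simp [h]
  have hne : (BT Bm).det ≠ 0 := by
    intro h
    rw [h] at hdet
    simp at hdet
  have h1 : MeasurePreserving (Matrix.toLin' (BT Bm)) (volume : Measure (Fin (N+1) → ℝ)) volume := by
    refine ⟨(LinearMap.continuous_of_finiteDimensional _).measurable, ?_⟩
    rw [Real.map_matrix_volume_pi_eq_smul_volume_pi hne, abs_inv, hdet]
    simp
  have h2 := volume_measurePreserving_piCongrLeft (fun _ => ℝ) e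
  have h3 := volume_measurePreserving_sumPiEquivProdPi_symm (fun _ : J ⊕ σ => ℝ)
  exact h1.comp (h2.comp h3)

lemma Um_lin (p q : (J → ℝ) × (σ → ℝ)) (a : ℝ) :
    Um J σ Bm e (p + q) = Um J σ Bm e p + Um J σ Bm e q ∧
      Um J σ Bm e (a • p) = a • Um J σ Bm e p := by
  constructor
  · funext l
    simp only [Um_apply, Pi.add_apply, Prod.fst_add, Prod.snd_add, mul_add,
      Finset.sum_add_distrib]
    ring
  · funext l
    simp only [Um_apply, Pi.smul_apply, Prod.smul_fst, Prod.smul_snd, smul_eq_mul, mul_add,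
      Finset.mul_sum]
    congr 1
    · exact Finset.sum_congr rfl fun j _ => by ring
    · exact Finset.sum_congr rfl fun j _ => by ring

/-- linear version -/
noncomputable def Ul : ((J → ℝ) × (σ → ℝ)) →ₗ[ℝ] (Fin (N+1) → ℝ) where
  toFun := Um J σ Bm e
  map_add' p q := (Um_lin J σ Bm e p q 0).1
  map_smul' a p := (Um_lin J σ Bm e p p a).2

lemma Ul_apply (p : (J → ℝ) × (σ → ℝ)) : Ul J σ Bm e p = Um J σ Bm e p := rfl

lemma Ul_bij (hB : IsUnit Bm.det) : Function.Bijective (Ul J σ Bm e) := by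
  have hdet : IsUnit (BT Bm) := by
    rw [Matrix.isUnit_iff_isUnit_det, det_BT]
    exact hB.map (Int.castRingHom ℝ)
  have h1 : Function.Bijective (Matrix.toLin' (BT Bm)) := by
    constructor
    · exact Matrix.mulVec_injective_of_isUnit hdet
    · exact Matrix.mulVec_surjective_iff_isUnit.mpr hdet
  exact h1.comp ((MeasurableEquiv.piCongrLeft (fun _ => ℝ) e).bijective.comp
    (MeasurableEquiv.sumPiEquivProdPi (fun _ => ℝ)).symm.bijective)

/-- the square matrix `H` -/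
def Hm : Matrix J J ℤ := fun j j' => (Mx v J).mulVec (Bm (e (Sum.inl j'))) j

lemma MxrhoZ (hJ : minSet v σ = J) (ρ : σ) : (Mx v J).mulVec (rhoZ v ρ) = 0 := by
  funext j
  have h1 : (j : Fin r) ∈ minSet v σ := by rw [hJ]; exact j.2
  rw [minSet, Finset.mem_filter] at h1
  have h2 := h1.2 ρ ρ.2
  simp only [Matrix.mulVec, dotProduct, Fin.sum_univ_succ, Mx_zero, Mx_succ, rhoZ, Fin.cons_zero,
    Fin.cons_succ, Pi.zero_apply]
  rw [← h2]
  push_cast
  have h3 : ∑ i : Fin N, (v j i : ℤ) * (((ρ : Fin N → ℕ) i : ℕ) : ℤ) =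
    ∑ i : Fin N, (((ρ : Fin N → ℕ) i : ℕ) : ℤ) * (v j i : ℤ) :=
    Finset.sum_congr rfl fun i _ => mul_comm _ _
  rw [h3]
  ring

lemma Al_Um (hJ : minSet v σ = J) (he : ∀ ρ : σ, Bm (e (Sum.inr ρ)) = rhoZ v ρ)
    (p : (J → ℝ) × (σ → ℝ)) :
    Al v J (Um J σ Bm e p) = ((Hm v J σ Bm e).map (fun x : ℤ => (x : ℝ))).mulVec p.1 := by
  have h0 : ∀ (x : Fin (N+1) → ℤ) (j : J), (MR v J).mulVec (fun l => (x l : ℝ)) j =
      (((Mx v J).mulVec x j : ℤ) : ℝ) := by
    intro x j
    simp [MR, Matrix.mulVec, dotProduct]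
  have h1 : Um J σ Bm e p = ∑ j : J, p.1 j • (fun l => (Bm (e (Sum.inl j)) l : ℝ)) +
      ∑ ρ : σ, p.2 ρ • (fun l => (Bm (e (Sum.inr ρ)) l : ℝ)) := by
    funext l
    rw [Um_apply, Pi.add_apply, Finset.sum_apply, Finset.sum_apply]
    congr 1
    · exact Finset.sum_congr rfl fun j _ => by simp [mul_comm]
    · exact Finset.sum_congr rfl fun j _ => by simp [mul_comm]
  rw [h1, map_add, map_sum, map_sum]
  have h2 : ∑ ρ : σ, Al v J (p.2 ρ • (fun l => (Bm (e (Sum.inr ρ)) l : ℝ))) = 0 := by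
    apply Finset.sum_eq_zero
    intro ρ _
    rw [map_smul, Al, Matrix.mulVecLin_apply]
    have : (MR v J).mulVec (fun l => (Bm (e (Sum.inr ρ)) l : ℝ)) = 0 := by
      funext j
      rw [h0, he, MxrhoZ v J σ hJ]
      simp
    rw [this, smul_zero]
  rw [h2, add_zero]
  funext j
  rw [Finset.sum_apply]
  simp only [Matrix.mulVec, dotProduct, Matrix.map_apply]
  refine Finset.sum_congr rfl fun j' _ => ?_
  rw [map_smul, Al, Matrix.mulVecLin_apply, Pi.smul_apply, h0, smul_eq_mul, mul_comm]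
  rfl

lemma det_Hm_ne (hv : Ind v) (hB : IsUnit Bm.det) (hJ : minSet v σ = J)
    (he : ∀ ρ : σ, Bm (e (Sum.inr ρ)) = rhoZ v ρ) : (Hm v J σ Bm e).det ≠ 0 := by
  classical
  obtain ⟨P, hP⟩ := exists_rinv v hv J
  have h1 : Function.Surjective ((Hm v J σ Bm e).map (fun x : ℤ => (x : ℝ))).mulVec := by
    intro z
    obtain ⟨p, hp⟩ := (Ul_bij J σ Bm e hB).2 (P.mulVec z)
    refine ⟨p.1, ?_⟩
    rw [← Al_Um v J σ Bm e hJ he, ← Ul_apply, hp, Al, Matrix.mulVecLin_apply,
      Matrix.mulVec_mulVec, hP, Matrix.one_mulVec]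
  rw [Matrix.mulVec_surjective_iff_isUnit, Matrix.isUnit_iff_isUnit_det] at h1
  intro h
  have h2 : ((Hm v J σ Bm e).map (fun x : ℤ => (x : ℝ))).det = ((Hm v J σ Bm e).det : ℝ) :=
    (RingHom.map_det (Int.castRingHom ℝ) _).symm
  rw [h2, h] at h1
  simp at h1

lemma idx_eq (hB : IsUnit Bm.det) (hJ : minSet v σ = J)
    (he : ∀ ρ : σ, Bm (e (Sum.inr ρ)) = rhoZ v ρ) (hdet : (Hm v J σ Bm e).det ≠ 0) :
    idx v J = (Hm v J σ Bm e).det.natAbs := by
  classical
  set H := Hm v J σ Bm e with hH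
  have hev : ∀ p : (Fin N → ℤ) × ℤ, evalHom v J p = (Mx v J).mulVec (Fin.cons (-p.2) p.1) := by
    intro p
    funext j
    simp only [evalHom, AddMonoidHom.coe_mk, ZeroHom.coe_mk, Matrix.mulVec, dotProduct,
      Fin.sum_univ_succ, Mx_zero, Mx_succ, Fin.cons_zero, Fin.cons_succ]
    rw [neg_mul_neg, one_mul, add_comm]
    congr 1
    exact Finset.sum_congr rfl fun i _ => mul_comm _ _
  have hrange : (evalHom v J).range = (LinearMap.range (Matrix.toLin' H)).toAddSubgroup := by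
    ext y
    simp only [AddMonoidHom.mem_range, Submodule.mem_toAddSubgroup, LinearMap.mem_range]
    constructor
    · rintro ⟨p, rfl⟩
      -- write the vector in the basis of rows of `Bm`
      set x : Fin (N+1) → ℤ := Fin.cons (-p.2) p.1 with hx
      obtain ⟨u, hu⟩ : ∃ u : Fin (N+1) → ℤ, Bm.transpose.mulVec u = x := by
        have hT : IsUnit Bm.transpose := by
          rw [Matrix.isUnit_iff_isUnit_det, Matrix.det_transpose]; exact hB
        exact Matrix.mulVec_surjective_iff_isUnit.mpr hT x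
      refine ⟨fun j => u (e (Sum.inl j)), ?_⟩
      rw [hev, ← hx, ← hu, Matrix.toLin'_apply]
      have h1 : Bm.transpose.mulVec u = ∑ s : J ⊕ σ, u (e s) • Bm (e s) := by
        rw [e.sum_comp (fun k => u k • Bm k)]
        funext l
        simp [Matrix.mulVec, dotProduct, mul_comm]
      rw [h1, Fintype.sum_sum_type, Matrix.mulVec_add]
      have h2 : (Mx v J).mulVec (∑ ρ : σ, u (e (Sum.inr ρ)) • Bm (e (Sum.inr ρ))) = 0 := by
        rw [← Matrix.mulVecLin_apply, map_sum]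
        apply Finset.sum_eq_zero
        intro ρ _
        rw [map_smul, he, Matrix.mulVecLin_apply, MxrhoZ v J σ hJ, smul_zero]
      rw [h2, add_zero, ← Matrix.mulVecLin_apply (Mx v J), map_sum]
      funext j
      rw [Finset.sum_apply]
      simp only [Matrix.mulVec, dotProduct]
      refine Finset.sum_congr rfl fun j' _ => ?_
      rw [map_smul, Matrix.mulVecLin_apply, Pi.smul_apply, smul_eq_mul, mul_comm, hH]
      rfl
    · rintro ⟨z, rfl⟩
      set x : Fin (N+1) → ℤ := ∑ j : J, z j • Bm (e (Sum.inl j)) with hx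
      refine ⟨(fun i => x i.succ, - x 0), ?_⟩
      rw [hev]
      have h3 : (Fin.cons (- -x 0) (fun i : Fin N => x i.succ) : Fin (N+1) → ℤ) = x := by
        funext l
        refine Fin.cases ?_ (fun i => ?_) l
        · simp
        · simp
      simp only [h3]
      rw [hx, ← Matrix.mulVecLin_apply (Mx v J), map_sum, Matrix.toLin'_apply]
      funext j
      rw [Finset.sum_apply]
      simp only [Matrix.mulVec, dotProduct]
      refine Finset.sum_congr rfl fun j' _ => ?_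
      rw [map_smul, Matrix.mulVecLin_apply, Pi.smul_apply, smul_eq_mul, mul_comm, hH]
      rfl
  have hinj : Function.Injective (Matrix.toLin' H) := by
    rw [← LinearMap.ker_eq_bot]
    exact Matrix.ker_toLin'_eq_bot_iff.mpr (fun w hw => Matrix.eq_zero_of_mulVec_eq_zero hdet hw)
  have key := Submodule.natAbs_det_equiv (LinearMap.range (Matrix.toLin' H))
    (LinearEquiv.ofInjective (Matrix.toLin' H) hinj)
  rw [idx, hrange]
  have h4 : (LinearMap.range (Matrix.toLin' H)).subtype ∘ₗ AddMonoidHom.toIntLinearMap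
      ((LinearEquiv.ofInjective (Matrix.toLin' H) hinj : (J → ℤ) ≃ₗ[ℤ] _) :
        (J → ℤ) →+ LinearMap.range (Matrix.toLin' H)) = Matrix.toLin' H := by
    ext x; rfl
  rw [h4, LinearMap.det_toLin'] at key
  rw [key]
  rfl

end frame

end Pool.Agent.W375.SM
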