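import Pool.Agent.W425.SM.Stmts

set_option autoImplicit false

/-! Linear algebra: the matrix of the linear forms, its right inverse, adapted coordinates. -/

namespace Pool.Agent.W375.SM

open MvPolynomial Pool.Agent.H628R4.TZ Pool.Agent.H628R4.TP MeasureTheory Filter Topology
open Pool.Agent.W425.SM

/-- integer matrix of the linear forms `<w, v_j> - t` -/
def Mx {r N : ℕ} (v : Fin r → Fin N → ℕ) (J : Finset (Fin r)) : Matrix J (Fin (N+1)) ℤ :=
  fun j => Fin.cons (-1) (fun i => (v j i : ℤ))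

/-- the real matrix -/
noncomputable def MR {r N : ℕ} (v : Fin r → Fin N → ℕ) (J : Finset (Fin r)) :
    Matrix J (Fin (N+1)) ℝ := (Mx v J).map (fun x : ℤ => (x : ℝ))

lemma Mx_zero {r N : ℕ} (v : Fin r → Fin N → ℕ) (J : Finset (Fin r)) (j : J) :
    Mx v J j 0 = -1 := rfl

lemma Mx_succ {r N : ℕ} (v : Fin r → Fin N → ℕ) (J : Finset (Fin r)) (j : J) (i : Fin N) :
    Mx v J j i.succ = (v j i : ℤ) := rfl

lemma MR_mulVec {r N : ℕ} (v : Fin r → Fin N → ℕ) (J : Finset (Fin r)) (x : Fin (N+1) → ℝ)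
    (j : J) : (MR v J).mulVec x j = ymap v x j := by
  simp only [MR, Matrix.mulVec, dotProduct, Matrix.map_apply, Fin.sum_univ_succ, Mx_zero, Mx_succ,
    ymap]
  push_cast
  ring

lemma rows_indep {r N : ℕ} (v : Fin r → Fin N → ℕ) (hv : Ind v) (J : Finset (Fin r)) :
    LinearIndependent ℚ ((Mx v J).map (fun x : ℤ => (x : ℚ))).row := by
  classical
  rw [Fintype.linearIndependent_iff]
  intro g hg
  have h0 := congrFun hg 0
  simp only [Finset.sum_apply, Pi.smul_apply, smul_eq_mul, Pi.zero_apply, Matrix.row_apply,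
    Matrix.map_apply, Mx_zero] at h0
  have h1 : ∀ i : Fin N, ∑ j : J, g j * (v j i : ℚ) = 0 := by
    intro i
    have h2 := congrFun hg i.succ
    simp only [Finset.sum_apply, Pi.smul_apply, smul_eq_mul, Pi.zero_apply, Matrix.row_apply,
      Matrix.map_apply, Mx_succ] at h2
    simpa using h2
  have h0' : ∑ j : J, g j = 0 := by
    push_cast at h0
    simp only [mul_neg, mul_one, Finset.sum_neg_distrib, neg_eq_zero] at h0
    exact h0
  unfold Ind at hv
  rw [affineIndependent_iff] at hv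
  have key := hv J (fun j => if h : j ∈ J then g ⟨j, h⟩ else 0) ?_ ?_
  · intro j
    have := key j j.2
    simpa using this
  · rw [← h0', ← Finset.sum_coe_sort J]
    refine Finset.sum_congr rfl fun j _ => ?_
    simp
  · ext i
    rw [Finset.sum_apply, ← Finset.sum_coe_sort J]
    rw [Pi.zero_apply, ← h1 i]
    refine Finset.sum_congr rfl fun j _ => ?_
    simp

lemma exists_rinv {r N : ℕ} (v : Fin r → Fin N → ℕ) (hv : Ind v) (J : Finset (Fin r)) :
    ∃ P : Matrix (Fin (N+1)) J ℝ, MR v J * P = 1 := by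
  classical
  set MQ : Matrix J (Fin (N+1)) ℚ := (Mx v J).map (fun x : ℤ => (x : ℚ)) with hMQ
  have h1 : MQ.rank = Fintype.card J := (rows_indep v hv J).rank_matrix
  have h2 : Function.Surjective MQ.mulVec := by
    have h3 : LinearMap.range MQ.mulVecLin = ⊤ := by
      apply Submodule.eq_top_of_finrank_eq
      rw [Module.finrank_fintype_fun_eq_card, ← h1, Matrix.rank]
    exact LinearMap.range_eq_top.mp h3
  obtain ⟨P, hP⟩ := Matrix.mulVec_surjective_iff_exists_right_inverse.mp h2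
  refine ⟨P.map (fun x : ℚ => (x : ℝ)), ?_⟩
  have h4 := congrArg (fun A : Matrix J J ℚ => A.map (Rat.castHom ℝ)) hP
  simp only [Matrix.map_mul] at h4
  have h5 : (1 : Matrix J J ℚ).map (Rat.castHom ℝ) = 1 := Matrix.map_one _ (by simp) (by simp)
  rw [h5] at h4
  rw [← h4]
  congr 1

/-- the linear map `A` -/
noncomputable def Al {r N : ℕ} (v : Fin r → Fin N → ℕ) (J : Finset (Fin r)) :
    (Fin (N+1) → ℝ) →ₗ[ℝ] (J → ℝ) := (MR v J).mulVecLin

lemma Al_apply {r N : ℕ} (v : Fin r → Fin N → ℕ) (J : Finset (Fin r)) (x : Fin (N+1) → ℝ)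
    (j : J) : Al v J x j = ymap v x j := by
  rw [Al, Matrix.mulVecLin_apply, MR_mulVec]

lemma exists_coord {r N : ℕ} (v : Fin r → Fin N → ℕ) (hv : Ind v) (J : Finset (Fin r)) :
    ∃ (d : ℕ) (Θ : ((J → ℝ) × (Fin d → ℝ)) ≃ₗ[ℝ] (Fin (N+1) → ℝ)), d + J.card = N + 1 ∧
      ∀ (z : J → ℝ) (a : Fin d → ℝ), Al v J (Θ (z, a)) = z := by
  classical
  obtain ⟨P, hP⟩ := exists_rinv v hv J
  set d := Module.finrank ℝ (LinearMap.ker (Al v J)) with hd
  let b := Module.finBasis ℝ (LinearMap.ker (Al v J))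
  let κ : (Fin d → ℝ) ≃ₗ[ℝ] LinearMap.ker (Al v J) := b.equivFun.symm
  let T : ((J → ℝ) × (Fin d → ℝ)) →ₗ[ℝ] (Fin (N+1) → ℝ) :=
    LinearMap.coprod P.mulVecLin ((LinearMap.ker (Al v J)).subtype ∘ₗ κ.toLinearMap)
  have hT : ∀ z a, T (z, a) = P.mulVec z + (κ a : Fin (N+1) → ℝ) := fun z a => rfl
  have hAP : ∀ z : J → ℝ, Al v J (P.mulVec z) = z := by
    intro z
    rw [Al, Matrix.mulVecLin_apply, Matrix.mulVec_mulVec, hP, Matrix.one_mulVec]
  have hAT : ∀ z a, Al v J (T (z, a)) = z := by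
    intro z a
    rw [hT, map_add, hAP, (LinearMap.mem_ker.mp (κ a).2), add_zero]
  have hinj : Function.Injective T := by
    rw [← LinearMap.ker_eq_bot, LinearMap.ker_eq_bot']
    rintro ⟨z, a⟩ h
    have h1 : z = 0 := by rw [← hAT z a, h, map_zero]
    subst h1
    rw [hT, Matrix.mulVec_zero, zero_add] at h
    have h2 : κ a = 0 := Subtype.ext h
    have h3 : a = 0 := by simpa using h2
    rw [h3]; rfl
  have hsurj : Function.Surjective T := by
    intro x
    have h1 : x - P.mulVec (Al v J x) ∈ LinearMap.ker (Al v J) := by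
      rw [LinearMap.mem_ker, map_sub, hAP, sub_self]
    refine ⟨(Al v J x, κ.symm ⟨_, h1⟩), ?_⟩
    rw [hT, LinearEquiv.apply_symm_apply]
    simp
  refine ⟨d, LinearEquiv.ofBijective T ⟨hinj, hsurj⟩, ?_, fun z a => ?_⟩
  · have h1 := (Al v J).finrank_range_add_finrank_ker
    have h2 : LinearMap.range (Al v J) = ⊤ := by
      rw [LinearMap.range_eq_top]
      exact fun z => ⟨_, hAP z⟩
    rw [h2, finrank_top, Module.finrank_fintype_fun_eq_card, Module.finrank_fintype_fun_eq_card,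
      Fintype.card_coe, Fintype.card_fin] at h1
    omega
  · exact hAT z a

end Pool.Agent.W375.SM
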