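import Pool.Agent.W375.SM.Lin

set_option autoImplicit false

/-! Haar measure factors. -/

namespace Pool.Agent.W375.SM

open MvPolynomial Pool.Agent.H628R4.TZ Pool.Agent.H628R4.TP MeasureTheory Filter Topology
open Pool.Agent.W425.SM

section factor

variable {E F : Type*} [NormedAddCommGroup E] [NormedSpace ℝ E] [MeasurableSpace E] [BorelSpace E]
  [FiniteDimensional ℝ E] [NormedAddCommGroup F] [NormedSpace ℝ F] [MeasurableSpace F]
  [BorelSpace F] [FiniteDimensional ℝ F]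

omit [FiniteDimensional ℝ F] in
lemma emb (T : E ≃ₗ[ℝ] F) : MeasurableEmbedding T :=
  T.toContinuousLinearEquiv.toHomeomorph.measurableEmbedding

lemma exists_factor (μ : Measure E) [μ.IsAddHaarMeasure] (ν : Measure F) [ν.IsAddHaarMeasure]
    (T : E ≃ₗ[ℝ] F) : ∃ c : ENNReal, c ≠ 0 ∧ c ≠ ⊤ ∧ Measure.map T μ = c • ν := by
  have : (Measure.map T μ).IsAddHaarMeasure :=
    T.toContinuousLinearEquiv.isAddHaarMeasure_map μ
  have h3 := Measure.isAddLeftInvariant_eq_smul (Measure.map T μ) ν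
  refine ⟨(Measure.addHaarScalarFactor (Measure.map T μ) ν : ENNReal), ?_, ENNReal.coe_ne_top, ?_⟩
  · rw [ENNReal.coe_ne_zero]
    exact (Measure.addHaarScalarFactor_pos_of_isAddHaarMeasure _ _).ne'
  · exact h3

lemma setIntegral_factor (μ : Measure E) (ν : Measure F) (T : E ≃ₗ[ℝ] F) (c : ENNReal)
    (h : Measure.map T μ = c • ν) (s : Set F) (g : F → ℂ) :
    ∫ x in T ⁻¹' s, g (T x) ∂μ = (c.toReal : ℂ) * ∫ y in s, g y ∂ν := by
  rw [← (emb T).setIntegral_map, h, Measure.restrict_smul, integral_smul_measure]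
  rfl

lemma integral_factor (μ : Measure E) (ν : Measure F) (T : E ≃ₗ[ℝ] F) (c : ENNReal)
    (h : Measure.map T μ = c • ν) (g : F → ℂ) :
    ∫ x, g (T x) ∂μ = (c.toReal : ℂ) * ∫ y, g y ∂ν := by
  have := setIntegral_factor μ ν T c h Set.univ g
  simpa using this

end factor

lemma exists_adapt {r N : ℕ} (v : Fin r → Fin N → ℕ) (hv : Ind v) (J : Finset (Fin r)) :
    ∃ (d : ℕ) (Θ : ((J → ℝ) × (Fin d → ℝ)) ≃ₗ[ℝ] (Fin (N+1) → ℝ)) (θ : ENNReal),
      Measure.map Θ.symm volume = θ • volume ∧ Adapt v J d Θ θ.toReal ∧ θ ≠ ⊤ ∧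
      ∀ (z : J → ℝ) (a : Fin d → ℝ), Al v J (Θ (z, a)) = z := by
  obtain ⟨d, Θ, h1, h2⟩ := exists_coord v hv J
  have : (volume : Measure ((J → ℝ) × (Fin d → ℝ))).IsAddHaarMeasure :=
    Measure.prod.instIsAddHaarMeasure _ _
  obtain ⟨θ, t1, t2, t3⟩ := exists_factor (volume : Measure (Fin (N+1) → ℝ))
    (volume : Measure ((J → ℝ) × (Fin d → ℝ))) Θ.symm
  refine ⟨d, Θ, θ, t3, ⟨ENNReal.toReal_pos t1 t2, h1, ?_, ?_⟩, t2, h2⟩
  · intro z a j
    rw [← Al_apply, h2]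
  · intro g
    have := integral_factor _ _ Θ.symm θ t3 (fun p => g (Θ p))
    simpa using this

/-- The bordered matrix: first row `e_0`, the other rows `(q i, B i)`. -/
def Bh {N : ℕ} (B : Matrix (Fin N) (Fin N) ℤ) (q : Fin N → ℤ) :
    Matrix (Fin (N+1)) (Fin (N+1)) ℤ :=
  Fin.cons (Fin.cons 1 0) (fun i => Fin.cons (q i) (B i))

lemma Bh_zero {N : ℕ} (B : Matrix (Fin N) (Fin N) ℤ) (q : Fin N → ℤ) :
    Bh B q 0 = Fin.cons 1 0 := rfl

lemma Bh_succ {N : ℕ} (B : Matrix (Fin N) (Fin N) ℤ) (q : Fin N → ℤ) (i : Fin N) :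
    Bh B q i.succ = Fin.cons (q i) (B i) := rfl

lemma det_Bh {N : ℕ} (B : Matrix (Fin N) (Fin N) ℤ) (q : Fin N → ℤ) :
    (Bh B q).det = B.det := by
  rw [Matrix.det_succ_row_zero, Finset.sum_eq_single 0]
  · rw [Bh_zero]
    simp only [Fin.val_zero, pow_zero, Fin.cons_zero, mul_one, one_mul]
    congr 1
  · intro j _ hj
    obtain ⟨i, rfl⟩ := Fin.exists_succ_eq.mpr hj
    rw [Bh_zero]
    simp
  · intro h
    exact absurd (Finset.mem_univ _) h

end Pool.Agent.W375.SM
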